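import Pool.Agent.Helper5.FRD.Goals
import Pool.Agent.Helper9.FRC.NPR

/-!
# Project FRD (MP_79b960_co): packet FRD-ARCQ
-/

set_option autoImplicit false

namespace Pool.Agent.Helper4.FRD.ARCQ

open Finset Pool.Agent.Helper5.FRC Pool.Agent.Helper5.FRD

/-- The shifted pairing of the positions; if `c` then the positions `2 a`, `2 b + 1` are
exchanged, otherwise they are fixed. -/
def sg (a b : ℕ) (c : Prop) [Decidable c] (i : ℕ) : ℕ :=
  if i < 2 * a ∨ 2 * b + 1 < i then (if i % 2 = 0 then i + 1 else i - 1)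
  else if i = 2 * a then (if c then 2 * b + 1 else i)
  else if i = 2 * b + 1 then (if c then 2 * a else i)
  else if i % 2 = 1 then i + 1 else i - 1

section

variable {a b : ℕ} {c : Prop} [Decidable c]

theorem sg_out {i : ℕ} (h : i < 2 * a ∨ 2 * b + 1 < i) :
    sg a b c i = if i % 2 = 0 then i + 1 else i - 1 := by
  unfold sg
  rw [if_pos h]

theorem sg_lo (hab : a < b) : sg a b c (2 * a) = if c then 2 * b + 1 else 2 * a := by
  unfold sg
  rw [if_neg (by omega), if_pos rfl]

theorem sg_hi (hab : a < b) : sg a b c (2 * b + 1) = if c then 2 * a else 2 * b + 1 := by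
  unfold sg
  rw [if_neg (by omega), if_neg (by omega), if_pos rfl]

theorem sg_mid {i : ℕ} (h1 : 2 * a < i) (h2 : i < 2 * b + 1) :
    sg a b c i = if i % 2 = 1 then i + 1 else i - 1 := by
  unfold sg
  rw [if_neg (by omega), if_neg (by omega), if_neg (by omega)]

/-- The five cases for a position. -/
theorem cases5 (a b i : ℕ) : (i < 2 * a ∨ 2 * b + 1 < i) ∨ i = 2 * a ∨ i = 2 * b + 1 ∨
    (2 * a < i ∧ i < 2 * b + 1) := by omega

theorem sg_sg (hab : a < b) (i : ℕ) : sg a b c (sg a b c i) = i := by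
  rcases cases5 a b i with h | h | h | ⟨h1, h2⟩
  · rw [sg_out h]
    rcases Nat.mod_two_eq_zero_or_one i with hm | hm
    · rw [if_pos hm, sg_out (by omega), if_neg (by omega)]
      omega
    · rw [if_neg (by omega), sg_out (by omega), if_pos (by omega)]
      omega
  · subst h
    rw [sg_lo hab]
    by_cases hc : c
    · rw [if_pos hc, sg_hi hab, if_pos hc]
    · rw [if_neg hc, sg_lo hab, if_neg hc]
  · subst h
    rw [sg_hi hab]
    by_cases hc : c
    · rw [if_pos hc, sg_lo hab, if_pos hc]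
    · rw [if_neg hc, sg_hi hab, if_neg hc]
  · rw [sg_mid h1 h2]
    rcases Nat.mod_two_eq_zero_or_one i with hm | hm
    · rw [if_neg (by omega), sg_mid (by omega) (by omega), if_pos (by omega)]
      omega
    · rw [if_pos hm, sg_mid (by omega) (by omega), if_neg (by omega)]
      omega

theorem sg_lt (hab : a < b) {L i : ℕ} (hL : L % 2 = 0) (hb : 2 * b + 1 < L) (hi : i < L) :
    sg a b c i < L := by
  rcases cases5 a b i with h | h | h | ⟨h1, h2⟩
  · rw [sg_out h]
    rcases Nat.mod_two_eq_zero_or_one i with hm | hm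
    · rw [if_pos hm]
      omega
    · rw [if_neg (by omega)]
      omega
  · subst h
    rw [sg_lo hab]
    by_cases hc : c
    · rw [if_pos hc]
      omega
    · rw [if_neg hc]
      omega
  · subst h
    rw [sg_hi hab]
    by_cases hc : c
    · rw [if_pos hc]
      omega
    · rw [if_neg hc]
      omega
  · rw [sg_mid h1 h2]
    rcases Nat.mod_two_eq_zero_or_one i with hm | hm
    · rw [if_neg (by omega)]
      omega
    · rw [if_pos hm]
      omega

/-- Neighbours, except in the case `c`. -/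
theorem sg_near (hab : a < b) (i : ℕ) : sg a b c i = i ∨ sg a b c i = i + 1 ∨
    sg a b c i + 1 = i ∨ (c ∧ i = 2 * a ∧ sg a b c i = 2 * b + 1) ∨
    (c ∧ i = 2 * b + 1 ∧ sg a b c i = 2 * a) := by
  rcases cases5 a b i with h | h | h | ⟨h1, h2⟩
  · rw [sg_out h]
    rcases Nat.mod_two_eq_zero_or_one i with hm | hm
    · rw [if_pos hm]
      omega
    · rw [if_neg (by omega)]
      omega
  · subst h
    rw [sg_lo hab]
    by_cases hc : c
    · rw [if_pos hc]
      exact Or.inr (Or.inr (Or.inr (Or.inl ⟨hc, rfl, rfl⟩)))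
    · rw [if_neg hc]
      exact Or.inl rfl
  · subst h
    rw [sg_hi hab]
    by_cases hc : c
    · rw [if_pos hc]
      exact Or.inr (Or.inr (Or.inr (Or.inr ⟨hc, rfl, rfl⟩)))
    · rw [if_neg hc]
      exact Or.inl rfl
  · rw [sg_mid h1 h2]
    rcases Nat.mod_two_eq_zero_or_one i with hm | hm
    · rw [if_neg (by omega)]
      omega
    · rw [if_pos hm]
      omega

/-- The fixed positions. -/
theorem sg_fix (hab : a < b) {i : ℕ} (h : sg a b c i = i) :
    ¬ c ∧ (i = 2 * a ∨ i = 2 * b + 1) := by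
  rcases cases5 a b i with h0 | h0 | h0 | ⟨h1, h2⟩
  · rw [sg_out h0] at h
    rcases Nat.mod_two_eq_zero_or_one i with hm | hm
    · rw [if_pos hm] at h
      omega
    · rw [if_neg (by omega)] at h
      omega
  · subst h0
    rw [sg_lo hab] at h
    by_cases hc : c
    · rw [if_pos hc] at h
      omega
    · exact ⟨hc, Or.inl rfl⟩
  · subst h0
    rw [sg_hi hab] at h
    by_cases hc : c
    · rw [if_pos hc] at h
      omega
    · exact ⟨hc, Or.inr rfl⟩
  · rw [sg_mid h1 h2] at h
    rcases Nat.mod_two_eq_zero_or_one i with hm | hm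
    · rw [if_neg (by omega)] at h
      omega
    · rw [if_pos hm] at h
      omega

end

theorem t : ArcqStmt := by
  intro V _ _ n Z p hZ hev hp z hz hpz
  obtain ⟨hmem', hsurj', hinj'⟩ := Pool.Agent.Helper9.FRC.NPR.enum n Z hZ z hz
  have hmem : ∀ i, (n ^ i) z ∈ Z := by
    intro i
    rw [← Equiv.Perm.iterate_eq_pow]
    exact hmem' i
  have hsurj : ∀ x ∈ Z, ∃ i < Z.card, (n ^ i) z = x := by
    intro x hx
    obtain ⟨i, hi, he⟩ := hsurj' x hx
    rw [Equiv.Perm.iterate_eq_pow] at he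
    exact ⟨i, hi, he⟩
  have hinj : ∀ i < Z.card, ∀ j < Z.card, (n ^ i) z = (n ^ j) z → i = j := by
    intro i hi j hj h
    refine hinj' i hi j hj ?_
    rw [Equiv.Perm.iterate_eq_pow, Equiv.Perm.iterate_eq_pow]
    exact h
  have hs : ∀ i, n ((n ^ i) z) = (n ^ (i + 1)) z := by
    intro i
    rw [pow_succ', Equiv.Perm.mul_apply]
  have h0 : (n ^ 0) z = z := by simp
  have hL : 0 < Z.card := card_pos.mpr ⟨z, hz⟩
  have hL2 : Z.card % 2 = 0 := Nat.even_iff.mp hev
  have hwrap : (n ^ Z.card) z = (n ^ 0) z := by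
    obtain ⟨i, hi, he⟩ := hsurj _ (hmem Z.card)
    rcases Nat.eq_zero_or_pos i with hi0 | hi0
    · rw [← he, hi0]
    · exfalso
      obtain ⟨k, rfl⟩ : ∃ k, i = k + 1 := ⟨i - 1, by omega⟩
      obtain ⟨l, hl⟩ : ∃ l, Z.card = l + 1 := ⟨Z.card - 1, by omega⟩
      rw [hl, ← hs, ← hs] at he
      have := hinj k (by omega) l (by omega) (n.injective he)
      omega
  -- the pairing `p`
  have hpp : ∀ j, 2 * j + 1 < Z.card → p ((n ^ (2 * j)) z) = (n ^ (2 * j + 1)) z ∧
      p ((n ^ (2 * j + 1)) z) = (n ^ (2 * j)) z := by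
    intro j
    induction j with
    | zero =>
      intro _
      have h1 : p ((n ^ (2 * 0)) z) = (n ^ (2 * 0 + 1)) z := by
        rw [← hs]
        simpa using hpz
      refine ⟨h1, ?_⟩
      rw [← h1]
      exact (hp.1 _ (hmem _)).2.1
    | succ j ih =>
      intro hj
      obtain ⟨ih1, ih2⟩ := ih (by omega)
      have h1 : p ((n ^ (2 * (j + 1))) z) = (n ^ (2 * (j + 1) + 1)) z := by
        rcases hp.2 _ (hmem (2 * (j + 1))) with h | h
        · rw [h, hs]
        · exfalso
          have e : 2 * (j + 1) = 2 * j + 1 + 1 := by ring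
          have h2 : p ((n ^ (2 * (j + 1))) z) = (n ^ (2 * j + 1)) z := by
            apply n.injective
            rw [h, hs, e]
          have h3 : p (p ((n ^ (2 * (j + 1))) z)) = (n ^ (2 * (j + 1))) z :=
            (hp.1 _ (hmem _)).2.1
          rw [h2, ih2] at h3
          have := hinj (2 * j) (by omega) (2 * (j + 1)) (by omega) h3
          omega
      refine ⟨h1, ?_⟩
      rw [← h1]
      exact (hp.1 _ (hmem _)).2.1
  refine ⟨hpp, ?_⟩
  intro a b hab hb
  obtain ⟨g, hg⟩ : ∃ g : V → ℕ, ∀ i < Z.card, g ((n ^ i) z) = i := by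
    classical
    refine ⟨fun x => if h : ∃ i, i < Z.card ∧ (n ^ i) z = x then Nat.find h else 0, ?_⟩
    intro i hi
    have h : ∃ j, j < Z.card ∧ (n ^ j) z = (n ^ i) z := ⟨i, hi, rfl⟩
    simp only [dif_pos h]
    have h2 := Nat.find_spec h
    exact hinj _ h2.1 i hi h2.2
  have hq : ∀ i < Z.card, (n ^ (sg a b (a = 0 ∧ 2 * b + 2 = Z.card) (g ((n ^ i) z)))) z =
      (n ^ (sg a b (a = 0 ∧ 2 * b + 2 = Z.card) i)) z := by
    intro i hi
    rw [hg i hi]
  refine ⟨fun v => (n ^ (sg a b (a = 0 ∧ 2 * b + 2 = Z.card) (g v))) z, ?_, ?_, ?_, ?_⟩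
  · intro v hv
    obtain ⟨i, hi, rfl⟩ := hsurj v hv
    have hlt : sg a b (a = 0 ∧ 2 * b + 2 = Z.card) i < Z.card := sg_lt hab hL2 hb hi
    simp only [hq i hi]
    refine ⟨hmem _, ?_, ?_⟩
    · rw [hq _ hlt, sg_sg hab]
    · rcases sg_near (c := (a = 0 ∧ 2 * b + 2 = Z.card)) hab i with h | h | h | h | h
      · left
        rw [h]
      · right; left
        rw [h, hs]
      · right; right
        rw [hs, h]
      · obtain ⟨⟨h1, h2⟩, h3, h4⟩ := h
        right; right
        have e : 2 * b + 1 + 1 = Z.card := by omega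
        rw [h4, hs, e, hwrap, h3, h1]
      · obtain ⟨⟨h1, h2⟩, h3, h4⟩ := h
        right; left
        have e : 2 * b + 1 + 1 = Z.card := by omega
        rw [h4, hs, h3, e, hwrap, h1]
  · intro v hv hfix
    obtain ⟨i, hi, rfl⟩ := hsurj v hv
    have hlt : sg a b (a = 0 ∧ 2 * b + 2 = Z.card) i < Z.card := sg_lt hab hL2 hb hi
    simp only [hq i hi] at hfix
    have hfi := hinj _ hlt i hi hfix
    obtain ⟨hc, hi2⟩ := sg_fix hab hfi
    refine ⟨?_, ?_⟩
    · rcases hi2 with h | h
      · left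
        rw [h]
      · right
        rw [h]
    · intro hcon
      simp only [hs] at hcon
      -- the position of the next vertex
      obtain ⟨j, hj, hje, hj2⟩ : ∃ j < Z.card, (n ^ (i + 1)) z = (n ^ j) z ∧
          (j = i + 1 ∨ (i + 1 = Z.card ∧ j = 0)) := by
        rcases Nat.lt_or_ge (i + 1) Z.card with h | h
        · exact ⟨i + 1, h, rfl, Or.inl rfl⟩
        · have e : i + 1 = Z.card := by omega
          exact ⟨0, hL, by rw [e, hwrap], Or.inr ⟨e, rfl⟩⟩
      have hltj : sg a b (a = 0 ∧ 2 * b + 2 = Z.card) j < Z.card := sg_lt hab hL2 hb hj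
      rw [hje, hq j hj] at hcon
      have hfj := hinj _ hltj j hj hcon
      obtain ⟨_, hj3⟩ := sg_fix hab hfj
      omega
  · by_cases hc : (a = 0 ∧ 2 * b + 2 = Z.card)
    · right
      simp only [hq (2 * a) (by omega), hq (2 * b + 1) (by omega), sg_lo hab, sg_hi hab, if_pos hc]
      exact ⟨trivial, trivial⟩
    · left
      simp only [hq (2 * a) (by omega), hq (2 * b + 1) (by omega), sg_lo hab, sg_hi hab, if_neg hc]
      exact ⟨trivial, trivial⟩
  · intro v hv hva
    obtain ⟨i, hi, rfl⟩ := hsurj v hv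
    have hout : i < 2 * a ∨ 2 * b + 1 < i := by
      by_contra h
      apply hva
      unfold Arc
      exact mem_image.mpr ⟨i, mem_Icc.mpr (by omega), rfl⟩
    simp only [hq i hi]
    rw [sg_out hout]
    rcases Nat.mod_two_eq_zero_or_one i with hm | hm
    · rw [if_pos hm]
      obtain ⟨j, rfl⟩ : ∃ j, i = 2 * j := ⟨i / 2, by omega⟩
      exact (hpp j (by omega)).1.symm
    · rw [if_neg (by omega)]
      obtain ⟨j, rfl⟩ : ∃ j, i = 2 * j + 1 := ⟨i / 2, by omega⟩
      have e : 2 * j + 1 - 1 = 2 * j := by omega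
      rw [e]
      exact (hpp j (by omega)).2.symm

end Pool.Agent.Helper4.FRD.ARCQ
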